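import Pool.Agent.Helper10.CR.Goals1

/-!
# Project CR, packet KB: relational structures as modules over the algebra of triples
-/

set_option linter.unusedSectionVars false

universe u v

namespace Pool.Agent.Helper75.CR

open Pool.Agent.Helper10.Width Pool.Agent.Helper72.Width Pool.Agent.Helper78.SD
open Pool.Agent.Helper10.CR

/-- the algebra of triples -/
@[ext] structure Tri (k : Type u) (N : ℕ) where
  /-- first corner -/
  l : k
  /-- the off-diagonal part -/
  f : Fin N → k
  /-- second corner -/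
  r : k

namespace Tri

variable {k : Type u} [Field k] {N : ℕ}

instance : Zero (Tri k N) := ⟨⟨0, 0, 0⟩⟩
instance : One (Tri k N) := ⟨⟨1, 0, 1⟩⟩
instance : Add (Tri k N) := ⟨fun x y => ⟨x.l + y.l, x.f + y.f, x.r + y.r⟩⟩
instance : Neg (Tri k N) := ⟨fun x => ⟨-x.l, -x.f, -x.r⟩⟩
instance : Mul (Tri k N) :=
  ⟨fun x y => ⟨x.l * y.l, fun i => x.l * y.f i + x.f i * y.r, x.r * y.r⟩⟩

@[simp] theorem zero_l : (0 : Tri k N).l = 0 := rfl
@[simp] theorem zero_f : (0 : Tri k N).f = 0 := rfl
@[simp] theorem zero_r : (0 : Tri k N).r = 0 := rfl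
@[simp] theorem one_l : (1 : Tri k N).l = 1 := rfl
@[simp] theorem one_f : (1 : Tri k N).f = 0 := rfl
@[simp] theorem one_r : (1 : Tri k N).r = 1 := rfl
@[simp] theorem add_l (x y : Tri k N) : (x + y).l = x.l + y.l := rfl
@[simp] theorem add_f (x y : Tri k N) : (x + y).f = x.f + y.f := rfl
@[simp] theorem add_r (x y : Tri k N) : (x + y).r = x.r + y.r := rfl
@[simp] theorem neg_l (x : Tri k N) : (-x).l = -x.l := rfl
@[simp] theorem neg_f (x : Tri k N) : (-x).f = -x.f := rfl
@[simp] theorem neg_r (x : Tri k N) : (-x).r = -x.r := rfl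
@[simp] theorem mul_l (x y : Tri k N) : (x * y).l = x.l * y.l := rfl
@[simp] theorem mul_f (x y : Tri k N) (i : Fin N) :
    (x * y).f i = x.l * y.f i + x.f i * y.r := rfl
@[simp] theorem mul_r (x y : Tri k N) : (x * y).r = x.r * y.r := rfl

instance : Ring (Tri k N) := Ring.ofMinimalAxioms
  (fun a b c => by ext <;> simp [add_assoc])
  (fun a => by ext <;> simp)
  (fun a => by ext <;> simp)
  (fun a b c => by ext <;> simp <;> ring)
  (fun a => by ext <;> simp)
  (fun a => by ext <;> simp)
  (fun a b c => by ext <;> simp <;> ring)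
  (fun a b c => by ext <;> simp <;> ring)

@[simp] theorem sub_l (x y : Tri k N) : (x - y).l = x.l - y.l := by
  rw [sub_eq_add_neg, add_l, neg_l, sub_eq_add_neg]
@[simp] theorem sub_f (x y : Tri k N) : (x - y).f = x.f - y.f := by
  rw [sub_eq_add_neg, add_f, neg_f, sub_eq_add_neg]
@[simp] theorem sub_r (x y : Tri k N) : (x - y).r = x.r - y.r := by
  rw [sub_eq_add_neg, add_r, neg_r, sub_eq_add_neg]

/-- the scalars -/
def C : k →+* Tri k N where
  toFun c := ⟨c, 0, c⟩
  map_one' := rfl
  map_mul' a b := by ext <;> simp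
  map_zero' := rfl
  map_add' a b := by ext <;> simp

@[simp] theorem C_l (c : k) : (C c : Tri k N).l = c := rfl
@[simp] theorem C_f (c : k) : (C c : Tri k N).f = 0 := rfl
@[simp] theorem C_r (c : k) : (C c : Tri k N).r = c := rfl

theorem C_comm (c : k) (x : Tri k N) : C c * x = x * C c := by
  ext <;> simp [mul_comm]

instance : Algebra k (Tri k N) := RingHom.toAlgebra' C C_comm

/-- the first idempotent -/
def E1 : Tri k N := ⟨1, 0, 0⟩
/-- the second idempotent -/
def E2 : Tri k N := ⟨0, 0, 1⟩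
/-- the off-diagonal elements -/
def O (f : Fin N → k) : Tri k N := ⟨0, f, 0⟩
/-- the basic off-diagonal elements -/
def P (i : Fin N) : Tri k N := O (Pi.single i 1)

@[simp] theorem E1_l : (E1 : Tri k N).l = 1 := rfl
@[simp] theorem E1_f : (E1 : Tri k N).f = 0 := rfl
@[simp] theorem E1_r : (E1 : Tri k N).r = 0 := rfl
@[simp] theorem E2_l : (E2 : Tri k N).l = 0 := rfl
@[simp] theorem E2_f : (E2 : Tri k N).f = 0 := rfl
@[simp] theorem E2_r : (E2 : Tri k N).r = 1 := rfl
@[simp] theorem O_l (f : Fin N → k) : (O f : Tri k N).l = 0 := rfl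
@[simp] theorem O_f (f : Fin N → k) : (O f : Tri k N).f = f := rfl
@[simp] theorem O_r (f : Fin N → k) : (O f : Tri k N).r = 0 := rfl

theorem E1E1 : (E1 : Tri k N) * E1 = E1 := by ext <;> simp
theorem E2E2 : (E2 : Tri k N) * E2 = E2 := by ext <;> simp
theorem E1E2 : (E1 : Tri k N) * E2 = 0 := by ext <;> simp
theorem E2E1 : (E2 : Tri k N) * E1 = 0 := by ext <;> simp
theorem E1_add_E2 : (E1 : Tri k N) + E2 = 1 := by ext <;> simp
theorem E1O (f : Fin N → k) : (E1 : Tri k N) * O f = O f := by ext <;> simp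
theorem E2O (f : Fin N → k) : (E2 : Tri k N) * O f = 0 := by ext <;> simp
theorem OE1 (f : Fin N → k) : O f * (E1 : Tri k N) = 0 := by ext <;> simp
theorem OE2 (f : Fin N → k) : O f * (E2 : Tri k N) = O f := by ext <;> simp
theorem mulE1 (s : Tri k N) : s * E1 = C s.l * E1 := by ext <;> simp
theorem mulE2 (s : Tri k N) : s * E2 = O s.f + C s.r * E2 := by ext <;> simp
theorem E2mul (s : Tri k N) : E2 * s = C s.r * E2 := by ext <;> simp

theorem sum_f {ι : Type} (s : Finset ι) (g : ι → Tri k N) (i : Fin N) :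
    (∑ j ∈ s, g j).f i = ∑ j ∈ s, (g j).f i := by
  classical
  induction s using Finset.induction_on with
  | empty => simp
  | insert a s ha ih => rw [Finset.sum_insert ha, Finset.sum_insert ha, add_f, Pi.add_apply, ih]

theorem sum_l {ι : Type} (s : Finset ι) (g : ι → Tri k N) :
    (∑ j ∈ s, g j).l = ∑ j ∈ s, (g j).l := by
  classical
  induction s using Finset.induction_on with
  | empty => simp
  | insert a s ha ih => rw [Finset.sum_insert ha, Finset.sum_insert ha, add_l, ih]

theorem sum_r {ι : Type} (s : Finset ι) (g : ι → Tri k N) :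
    (∑ j ∈ s, g j).r = ∑ j ∈ s, (g j).r := by
  classical
  induction s using Finset.induction_on with
  | empty => simp
  | insert a s ha ih => rw [Finset.sum_insert ha, Finset.sum_insert ha, add_r, ih]

theorem O_eq (f : Fin N → k) : O f = ∑ j, C (f j) * P j := by
  ext
  · rw [sum_l]; simp [P]
  · rw [sum_f]
    simp [P, Pi.single_apply]
  · rw [sum_r]; simp [P]

/-- the triples as a vector space -/
def toProd : Tri k N ≃ₗ[k] k × (Fin N → k) × k where
  toFun x := (x.l, x.f, x.r)
  invFun y := ⟨y.1, y.2.1, y.2.2⟩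
  map_add' x y := rfl
  map_smul' c x := by
    rw [Algebra.smul_def]
    show ((C c * x : Tri k N).l, (C c * x : Tri k N).f, (C c * x : Tri k N).r) = _
    ext <;> simp
  left_inv x := rfl
  right_inv y := rfl

theorem rank_lt : Module.rank k (Tri k N) < Cardinal.lift.{u} covM := by
  have : Module.Finite k (Tri k N) := Module.Finite.equiv toProd.symm
  exact (Module.rank_lt_aleph0 k (Tri k N)).trans aleph0_lt_lift

theorem descends : Descends.{u, u} (Tri k N) := fun A hA =>
  goalField k (Tri k N) rank_lt A hA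

end Tri

open Tri

section modules

variable {k : Type u} [Field k] {N : ℕ}

section gen

variable (M : Type u) [AddCommGroup M] [Module (Tri k N) M]

/-- the first corner of a module -/
def VV : AddSubgroup M where
  carrier := {y | (E1 : Tri k N) • y = y}
  zero_mem' := smul_zero _
  add_mem' := by
    intro x y hx hy
    show (E1 : Tri k N) • (x + y) = x + y
    rw [smul_add, hx, hy]
  neg_mem' := by
    intro x hx
    show (E1 : Tri k N) • (-x) = -x
    rw [smul_neg, hx]

variable {M}

theorem mem_VV {x : M} : x ∈ VV (k := k) (N := N) M ↔ (E1 : Tri k N) • x = x := Iff.rfl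

theorem C_mem (c : k) {x : M} (hx : x ∈ VV (k := k) (N := N) M) :
    (C c : Tri k N) • x ∈ VV (k := k) (N := N) M := by
  rw [mem_VV] at hx ⊢
  rw [← mul_smul, ← C_comm, mul_smul, hx]

theorem O_mem (f : Fin N → k) (x : M) : (O f : Tri k N) • x ∈ VV (k := k) (N := N) M := by
  rw [mem_VV, ← mul_smul, E1O]

theorem E1_mem (x : M) : (E1 : Tri k N) • x ∈ VV (k := k) (N := N) M := by
  rw [mem_VV, ← mul_smul, E1E1]

instance : SMul k (VV (k := k) (N := N) M) := ⟨fun c x => ⟨(C c : Tri k N) • x.1, C_mem c x.2⟩⟩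

theorem coe_smul (c : k) (x : VV (k := k) (N := N) M) :
    ((c • x : VV (k := k) (N := N) M) : M) = (C c : Tri k N) • (x : M) := rfl

instance : Module k (VV (k := k) (N := N) M) where
  one_smul x := Subtype.ext (by rw [coe_smul, map_one, one_smul])
  mul_smul a b x := Subtype.ext (by rw [coe_smul, map_mul, mul_smul]; rfl)
  smul_zero a := Subtype.ext (by rw [coe_smul]; exact smul_zero _)
  smul_add a x y := Subtype.ext (by
    rw [coe_smul, AddSubgroup.coe_add, smul_add, AddSubgroup.coe_add, coe_smul, coe_smul])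
  add_smul a b x := Subtype.ext (by
    rw [coe_smul, map_add, add_smul, AddSubgroup.coe_add, coe_smul, coe_smul])
  zero_smul x := Subtype.ext (by rw [coe_smul, map_zero, zero_smul]; rfl)

theorem coe_sum {ι : Type} (s : Finset ι) (g : ι → VV (k := k) (N := N) M) :
    ((∑ j ∈ s, g j : VV (k := k) (N := N) M) : M) = ∑ j ∈ s, (g j : M) :=
  AddSubgroup.val_finsetSum _ _ _

variable (M)

/-- the relation -/
def RR : Submodule k (Fin N → VV (k := k) (N := N) M) where
  carrier := {p | ∃ w : M, (E2 : Tri k N) • w = w ∧ ∀ i, (p i : M) = (P i : Tri k N) • w}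
  zero_mem' := ⟨0, smul_zero _, fun i => (smul_zero _).symm⟩
  add_mem' := by
    rintro p q ⟨w, hw, hp⟩ ⟨z, hz, hq⟩
    refine ⟨w + z, by rw [smul_add, hw, hz], fun i => ?_⟩
    rw [Pi.add_apply, AddSubgroup.coe_add, hp, hq, smul_add]
  smul_mem' := by
    rintro c p ⟨w, hw, hp⟩
    refine ⟨(C c : Tri k N) • w, ?_, fun i => ?_⟩
    · rw [← mul_smul, ← C_comm, mul_smul, hw]
    · rw [Pi.smul_apply, coe_smul, hp, ← mul_smul, ← mul_smul, C_comm]

/-- the relational structure of a module -/
def XX : RS k N where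
  V := VV (k := k) (N := N) M
  Rel := RR M

variable {M}

theorem mem_RR {p : Fin N → VV (k := k) (N := N) M} :
    p ∈ RR M ↔ ∃ w : M, (E2 : Tri k N) • w = w ∧ ∀ i, (p i : M) = (P i : Tri k N) • w := Iff.rfl

theorem O_smul (f : Fin N → k) (w : M) :
    (O f : Tri k N) • w = ∑ j, (C (f j) : Tri k N) • (P j : Tri k N) • w := by
  rw [O_eq, Finset.sum_smul]
  simp only [mul_smul]

end gen

/-! ### The conditions -/

/-- the condition of the first corner -/
noncomputable def e1 (k : Type u) [Field k] (N : ℕ) : PP (Tri k N) :=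
  PP.mk' (ι := Unit) (κ := Empty) (fun _ => E1 - 1) (fun _ => Empty.elim)

theorem mem_e1 {M : Type v} [AddCommGroup M] [Module (Tri k N) M] {x : M} :
    x ∈ (e1 k N).sol M ↔ (E1 : Tri k N) • x = x := by
  rw [e1, PP.mem_mk']
  constructor
  · rintro ⟨y, hy⟩
    have := hy ()
    rw [Finset.univ_eq_empty, Finset.sum_empty, add_zero, sub_smul, one_smul, sub_eq_zero] at this
    exact this
  · intro h
    refine ⟨Empty.elim, fun _ => ?_⟩
    rw [Finset.univ_eq_empty, Finset.sum_empty, add_zero, sub_smul, one_smul, sub_eq_zero]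
    exact h

/-- the kernel condition -/
noncomputable def e0 (k : Type u) [Field k] (N : ℕ) : PP (Tri k N) :=
  PP.mk' (ι := Unit ⊕ Fin N) (κ := Empty) (Sum.elim (fun _ => E2 - 1) P) (fun _ => Empty.elim)

theorem mem_e0 {M : Type v} [AddCommGroup M] [Module (Tri k N) M] {x : M} :
    x ∈ (e0 k N).sol M ↔ (E2 : Tri k N) • x = x ∧ ∀ i, (P i : Tri k N) • x = 0 := by
  rw [e0, PP.mem_mk']
  constructor
  · rintro ⟨y, hy⟩
    refine ⟨?_, fun i => ?_⟩
    · have := hy (Sum.inl ())
      rw [Finset.univ_eq_empty, Finset.sum_empty, add_zero, Sum.elim_inl, sub_smul, one_smul,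
        sub_eq_zero] at this
      exact this
    · have := hy (Sum.inr i)
      rw [Finset.univ_eq_empty, Finset.sum_empty, add_zero, Sum.elim_inr] at this
      exact this
  · rintro ⟨h1, h2⟩
    refine ⟨Empty.elim, ?_⟩
    rintro (i | i)
    · rw [Finset.univ_eq_empty, Finset.sum_empty, add_zero, Sum.elim_inl, sub_smul, one_smul,
        sub_eq_zero]
      exact h1
    · rw [Finset.univ_eq_empty, Finset.sum_empty, add_zero, Sum.elim_inr]
      exact h2 i

/-- the hypothesis of `A` -/
noncomputable def hyp (A : Ax k N) : PP (Tri k N) :=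
  PP.mk' (ι := Unit ⊕ Fin A.p) (κ := Empty) (Sum.elim (fun _ => E2 - 1) (fun i => O (A.c i)))
    (fun _ => Empty.elim)

theorem mem_hyp {A : Ax k N} {M : Type v} [AddCommGroup M] [Module (Tri k N) M] {x : M} :
    x ∈ (hyp A).sol M ↔ (E2 : Tri k N) • x = x ∧ ∀ i, (O (A.c i) : Tri k N) • x = 0 := by
  rw [hyp, PP.mem_mk']
  constructor
  · rintro ⟨y, hy⟩
    refine ⟨?_, fun i => ?_⟩
    · have := hy (Sum.inl ())
      rw [Finset.univ_eq_empty, Finset.sum_empty, add_zero, Sum.elim_inl, sub_smul, one_smul,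
        sub_eq_zero] at this
      exact this
    · have := hy (Sum.inr i)
      rw [Finset.univ_eq_empty, Finset.sum_empty, add_zero, Sum.elim_inr] at this
      exact this
  · rintro ⟨h1, h2⟩
    refine ⟨Empty.elim, ?_⟩
    rintro (i | i)
    · rw [Finset.univ_eq_empty, Finset.sum_empty, add_zero, Sum.elim_inl, sub_smul, one_smul,
        sub_eq_zero]
      exact h1
    · rw [Finset.univ_eq_empty, Finset.sum_empty, add_zero, Sum.elim_inr]
      exact h2 i

/-- the conclusion of `A` -/
noncomputable def con (A : Ax k N) : PP (Tri k N) :=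
  PP.mk' (ι := Fin A.m ⊕ Fin A.r) (κ := Fin A.m)
    (Sum.elim (fun _ => 0) (fun i => O (A.d i)))
    (Sum.elim (fun l l' => if l' = l then E2 - 1 else 0) (fun i l => O (A.e i l)))

theorem mem_con {A : Ax k N} {M : Type v} [AddCommGroup M] [Module (Tri k N) M] {x : M} :
    x ∈ (con A).sol M ↔ ∃ w' : Fin A.m → M, (∀ l, (E2 : Tri k N) • w' l = w' l) ∧
      ∀ i, (O (A.d i) : Tri k N) • x + ∑ l, (O (A.e i l) : Tri k N) • w' l = 0 := by
  rw [con, PP.mem_mk']
  constructor
  · rintro ⟨y, hy⟩
    refine ⟨y, fun l => ?_, fun i => ?_⟩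
    · have := hy (Sum.inl l)
      simp only [Sum.elim_inl, zero_smul, zero_add, ite_smul, Finset.sum_ite_eq',
        Finset.mem_univ, if_true, sub_smul, one_smul, sub_eq_zero] at this
      exact this
    · exact hy (Sum.inr i)
  · rintro ⟨y, h1, h2⟩
    refine ⟨y, ?_⟩
    rintro (l | i)
    · simp only [Sum.elim_inl, zero_smul, zero_add, ite_smul, Finset.sum_ite_eq',
        Finset.mem_univ, if_true, sub_smul, one_smul, sub_eq_zero]
      exact h1 l
    · exact h2 i

/-- the pairs of conditions -/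
noncomputable def TT (𝒜 : Set (Ax k N)) : Set (PP (Tri k N) × PP (Tri k N)) :=
  insert (e0 k N, PP.bot (Tri k N)) ((fun A => (hyp A, con A)) '' 𝒜)

theorem TT_sm {𝒜 : Set (Ax k N)} (h : 𝒜.Finite) : Sm (TT 𝒜) := by
  have h1 : (TT 𝒜).Finite := (h.image _).insert _
  have h2 : Cardinal.mk (TT 𝒜) < Cardinal.aleph0 := Cardinal.lt_aleph0_iff_set_finite.2 h1
  exact h2.trans aleph0_lt_lift

section cls

variable {𝒜 : Set (Ax k N)} {M : Type u} [AddCommGroup M] [Module (Tri k N) M]

theorem inj_of (h : InClass (TT 𝒜) M) {x : M} (h1 : (E2 : Tri k N) • x = x)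
    (h2 : ∀ i, (P i : Tri k N) • x = 0) : x = 0 := by
  have h3 := h _ (Set.mem_insert _ _) (mem_e0.2 ⟨h1, h2⟩)
  rw [PP.sol_bot] at h3
  exact h3

theorem holds_of' (h : InClass (TT 𝒜) M) {A : Ax k N} (hA : A ∈ 𝒜)
    (w : Fin N → VV (k := k) (N := N) M) (hw : w ∈ RR M) (h1 : ∀ i, ∑ j, A.c i j • w j = 0) :
    ∃ w' : Fin A.m → Fin N → VV (k := k) (N := N) M, (∀ l, w' l ∈ RR M) ∧
      ∀ i, ∑ j, A.d i j • w j + ∑ l, ∑ j, A.e i l j • w' l j = 0 := by
  obtain ⟨w0, hw0, hw1⟩ := hw
  have h2 : w0 ∈ (hyp A).sol M := by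
    rw [mem_hyp]
    refine ⟨hw0, fun i => ?_⟩
    have h4 := congrArg (Subtype.val) (h1 i)
    rw [O_smul]
    rw [coe_sum] at h4
    simp only [coe_smul, hw1] at h4
    exact h4
  have h5 : w0 ∈ (con A).sol M :=
    h _ (Set.mem_insert_of_mem _ (Set.mem_image_of_mem _ hA)) h2
  obtain ⟨w', h6, h7⟩ := mem_con.1 h5
  refine ⟨fun l j => ⟨(P j : Tri k N) • w' l, O_mem _ _⟩, fun l => ⟨w' l, h6 l, fun _ => rfl⟩,
    fun i => ?_⟩
  apply Subtype.ext
  have h8 := h7 i
  rw [O_smul] at h8
  have e2 : ∀ l, (O (A.e i l) : Tri k N) • w' l =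
      ∑ j, (C (A.e i l j) : Tri k N) • (P j : Tri k N) • w' l := fun l => O_smul _ _
  simp only [e2] at h8
  rw [AddSubgroup.coe_add, coe_sum, coe_sum]
  simp only [coe_sum, coe_smul, hw1]
  exact h8

theorem holds_of (h : InClass (TT 𝒜) M) {A : Ax k N} (hA : A ∈ 𝒜) : A.Holds (XX M) :=
  holds_of' h hA

/-- from relational conditions to pp conditions -/
noncomputable def chi (φ : RF k N) : PP (Tri k N) :=
  PP.mk' (ι := (Unit ⊕ Fin φ.n) ⊕ ((Fin φ.q ⊕ Fin φ.s) ⊕ (Fin φ.q × Fin N)))
    (κ := Fin φ.n ⊕ Fin φ.q)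
    (Sum.elim (Sum.elim (fun _ => E1 - 1) (fun _ => 0))
      (Sum.elim (Sum.elim (fun _ => 0) (fun i => C (φ.a i))) (fun p => C (φ.c p.1 p.2))))
    (Sum.elim (Sum.elim (fun _ _ => 0)
        (fun j => Sum.elim (fun j' => if j' = j then E1 - 1 else 0) (fun _ => 0)))
      (Sum.elim (Sum.elim
          (fun l => Sum.elim (fun _ => 0) (fun l' => if l' = l then E2 - 1 else 0))
          (fun i => Sum.elim (fun j => C (φ.b i j)) (fun _ => 0)))
        (fun p => Sum.elim (fun j => C (φ.d p.1 p.2 j))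
          (fun l' => if l' = p.1 then -P p.2 else 0))))

theorem mem_chi {φ : RF k N} {x : M} :
    x ∈ (chi φ).sol M ↔ (E1 : Tri k N) • x = x ∧ ∃ (y : Fin φ.n → M) (w : Fin φ.q → M),
      (∀ j, (E1 : Tri k N) • y j = y j) ∧ (∀ l, (E2 : Tri k N) • w l = w l) ∧
      (∀ i, (C (φ.a i) : Tri k N) • x + ∑ j, (C (φ.b i j) : Tri k N) • y j = 0) ∧
      ∀ l i, (C (φ.c l i) : Tri k N) • x + ∑ j, (C (φ.d l i j) : Tri k N) • y j =
        (P i : Tri k N) • w l := by
  rw [chi, PP.mem_mk']
  constructor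
  · rintro ⟨y, hy⟩
    refine ⟨?_, fun j => y (Sum.inl j), fun l => y (Sum.inr l), fun j => ?_, fun l => ?_,
      fun i => ?_, fun l i => ?_⟩
    · have := hy (Sum.inl (Sum.inl ()))
      simpa [sub_smul, sub_eq_zero] using this
    · have := hy (Sum.inl (Sum.inr j))
      simpa [sub_smul, sub_eq_zero, ite_smul] using this
    · have := hy (Sum.inr (Sum.inl (Sum.inl l)))
      simpa [sub_smul, sub_eq_zero, ite_smul] using this
    · have := hy (Sum.inr (Sum.inl (Sum.inr i)))
      simpa using this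
    · have := hy (Sum.inr (Sum.inr (l, i)))
      simp only [Sum.elim_inr, Fintype.sum_sum_type, Sum.elim_inl, ite_smul, zero_smul,
        Finset.sum_ite_eq', Finset.mem_univ, if_true, neg_smul] at this
      rw [← sub_eq_zero, ← this]
      abel
  · rintro ⟨h1, y, w, h2, h3, h4, h5⟩
    refine ⟨Sum.elim y w, ?_⟩
    rintro ((i | j) | ((l | i) | ⟨l, i⟩))
    · simpa [sub_smul, sub_eq_zero] using h1
    · simpa [sub_smul, sub_eq_zero, ite_smul] using h2 j
    · simpa [sub_smul, sub_eq_zero, ite_smul] using h3 l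
    · simpa using h4 i
    · have := h5 l i
      simp only [Sum.elim_inr, Fintype.sum_sum_type, Sum.elim_inl, ite_smul, zero_smul,
        Finset.sum_ite_eq', Finset.mem_univ, if_true, neg_smul]
      rw [← sub_eq_zero] at this
      rw [← this]
      abel

theorem mem_sol_XX {φ : RF k N} {v : VV (k := k) (N := N) M} :
    v ∈ φ.sol (XX M) ↔ ∃ y : Fin φ.n → VV (k := k) (N := N) M,
      (∀ i, φ.a i • v + ∑ j, φ.b i j • y j = 0) ∧
      ∀ l, (fun i => φ.c l i • v + ∑ j, φ.d l i j • y j) ∈ RR M := Iff.rfl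

theorem chi_iff {φ : RF k N} {v : VV (k := k) (N := N) M} :
    (v : M) ∈ (chi φ).sol M ↔ v ∈ φ.sol (XX M) := by
  rw [mem_sol_XX, mem_chi]
  constructor
  · rintro ⟨-, y, w, h2, h3, h4, h5⟩
    refine ⟨fun j => ⟨y j, h2 j⟩, fun i => ?_, fun l => ⟨w l, h3 l, fun i => ?_⟩⟩
    · apply Subtype.ext
      rw [AddSubgroup.coe_add, coe_sum]
      exact h4 i
    · rw [AddSubgroup.coe_add, coe_sum]
      exact h5 l i
  · rintro ⟨y, h1, h2⟩
    choose w h3 h4 using h2
    refine ⟨v.2, fun j => y j, w, fun j => (y j).2, h3, fun i => ?_, fun l i => ?_⟩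
    · have := congrArg Subtype.val (h1 i)
      rw [AddSubgroup.coe_add, coe_sum] at this
      exact this
    · have := h4 l i
      rw [AddSubgroup.coe_add, coe_sum] at this
      exact this

theorem chi_le {φ : RF k N} : (chi φ).sol M ≤ (e1 k N).sol M := fun _ hx =>
  mem_e1.2 (mem_chi.1 hx).1

/-- from pp conditions to relational conditions -/
noncomputable def phi (χ : PP (Tri k N)) : RF k N :=
  RF.mk' (ν := Fin χ.k ⊕ (Fin χ.k × Fin N)) (σ := Fin χ.n ⊕ (Fin χ.n × Fin N)) (θ := Fin χ.k)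
    (Sum.elim (fun r => (χ.a r).l) (fun _ => 0))
    (Sum.elim (fun r => Sum.elim (fun j => (χ.b r j).l) (fun p => (χ.b r p.1).f p.2))
      (fun q => Sum.elim (fun _ => 0) (fun p => if p.2 = q.2 then (χ.b q.1 p.1).r else 0)))
    (fun _ _ => 0)
    (fun j i => Sum.elim (fun _ => 0) (fun p => if p = (j, i) then 1 else 0))

theorem mem_phi {χ : PP (Tri k N)} {v : VV (k := k) (N := N) M} :
    v ∈ (phi χ).sol (XX M) ↔ ∃ (y : Fin χ.k → VV (k := k) (N := N) M)
      (z : Fin χ.k → Fin N → VV (k := k) (N := N) M),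
      (∀ r, (χ.a r).l • v + ∑ j, ((χ.b r j).l • y j + ∑ i, (χ.b r j).f i • z j i) = 0) ∧
      (∀ r i, ∑ j, (χ.b r j).r • z j i = 0) ∧ ∀ j, z j ∈ RR M := by
  have h0 : v ∈ (phi χ).sol (XX M) ↔ ∃ y : Fin χ.k ⊕ (Fin χ.k × Fin N) → VV (k := k) (N := N) M,
      (∀ i : Fin χ.n ⊕ (Fin χ.n × Fin N),
        (Sum.elim (fun r => (χ.a r).l) (fun _ => 0) i : k) • v + ∑ j, (Sum.elim
          (fun r => Sum.elim (fun j => (χ.b r j).l) (fun p => (χ.b r p.1).f p.2))
          (fun q => Sum.elim (fun _ => 0) (fun p => if p.2 = q.2 then (χ.b q.1 p.1).r else 0))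
          i j : k) • y j = 0) ∧
      ∀ l : Fin χ.k, (fun i => (0 : k) • v + ∑ j, (Sum.elim (fun _ => 0)
        (fun p => if p = (l, i) then 1 else 0) j : k) • y j) ∈ RR M := RF.mem_mk' _ _ _ _
  rw [h0]
  constructor
  · rintro ⟨y, h1, h2⟩
    refine ⟨fun j => y (Sum.inl j), fun j i => y (Sum.inr (j, i)), fun r => ?_, fun r i => ?_,
      fun j => ?_⟩
    · have := h1 (Sum.inl r)
      simp only [Sum.elim_inl, Fintype.sum_sum_type, Sum.elim_inr, Fintype.sum_prod_type] at this
      rw [Finset.sum_add_distrib]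
      exact this
    · have := h1 (Sum.inr (r, i))
      simpa [Fintype.sum_sum_type, Fintype.sum_prod_type, ite_smul] using this
    · have := h2 j
      simpa [Fintype.sum_sum_type, ite_smul] using this
  · rintro ⟨y, z, h1, h2, h3⟩
    refine ⟨Sum.elim y (fun p => z p.1 p.2), ?_, fun j => ?_⟩
    · rintro (r | ⟨r, i⟩)
      · simp only [Sum.elim_inl, Fintype.sum_sum_type, Sum.elim_inr, Fintype.sum_prod_type]
        rw [← Finset.sum_add_distrib]
        exact h1 r
      · simpa [Fintype.sum_sum_type, Fintype.sum_prod_type, ite_smul] using h2 r i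
    · simpa [Fintype.sum_sum_type, ite_smul] using h3 j

theorem smul_split (s : Tri k N) (y : M) :
    s • y = (C s.l : Tri k N) • (E1 : Tri k N) • y + ∑ i, (C (s.f i) : Tri k N) • (P i : Tri k N) • y +
      (C s.r : Tri k N) • (E2 : Tri k N) • y := by
  have h1 : s • y = (s * E1) • y + (s * E2) • y := by
    rw [← add_smul, ← mul_add, E1_add_E2, mul_one]
  rw [h1, mulE1, mulE2, add_smul, mul_smul, mul_smul, O_smul, add_assoc]

theorem phi_iff (h : InClass (TT 𝒜) M) {χ : PP (Tri k N)} {v : VV (k := k) (N := N) M} :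
    v ∈ (phi χ).sol (XX M) ↔ (v : M) ∈ χ.sol M := by
  have hv : (E1 : Tri k N) • (v : M) = v := v.2
  have hv2 : ∀ s : Tri k N, s • (v : M) = (C s.l : Tri k N) • (v : M) := by
    intro s
    conv_lhs => rw [← hv]
    rw [← mul_smul, mulE1, mul_smul, hv]
  rw [mem_phi, PP.mem_sol]
  constructor
  · rintro ⟨y, z, h1, h2, h3⟩
    choose w hw hz using h3
    refine ⟨fun j => (y j : M) + w j, fun r => ?_⟩
    have hy : ∀ (s : Tri k N) (j), s • (y j : M) = (C s.l : Tri k N) • (y j : M) := by
      intro s j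
      have hyj : (E1 : Tri k N) • (y j : M) = y j := (y j).2
      conv_lhs => rw [← hyj]
      rw [← mul_smul, mulE1, mul_smul, hyj]
    have hw2 : ∀ (s : Tri k N) (j), s • w j = ∑ i, (C (s.f i) : Tri k N) • (z j i : M) +
        (C s.r : Tri k N) • w j := by
      intro s j
      conv_lhs => rw [← hw j]
      rw [← mul_smul, mulE2, add_smul, mul_smul, hw, O_smul]
      simp only [hz]
    have e1 := congrArg Subtype.val (h1 r)
    rw [AddSubgroup.coe_add, coe_sum] at e1
    simp only [AddSubgroup.coe_add, coe_sum, coe_smul] at e1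
    have e2 : ∑ j, (C (χ.b r j).r : Tri k N) • w j = 0 := by
      apply inj_of h
      · rw [Finset.smul_sum]
        refine Finset.sum_congr rfl fun j _ => ?_
        rw [← mul_smul, ← C_comm, mul_smul, hw]
      · intro i
        have e3 := congrArg Subtype.val (h2 r i)
        rw [coe_sum] at e3
        simp only [coe_smul, hz] at e3
        rw [Finset.smul_sum]
        refine Eq.trans (Finset.sum_congr rfl fun j _ => ?_) e3
        rw [← mul_smul, ← C_comm, mul_smul]
    have e4 : ∀ j, χ.b r j • ((y j : M) + w j) = ((C (χ.b r j).l : Tri k N) • (y j : M) +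
        ∑ i, (C ((χ.b r j).f i) : Tri k N) • (z j i : M)) + (C (χ.b r j).r : Tri k N) • w j := by
      intro j
      rw [smul_add, hy, hw2]
      abel
    simp only [e4]
    rw [Finset.sum_add_distrib, e2, add_zero, hv2]
    exact e1
  · rintro ⟨y, h1⟩
    refine ⟨fun j => ⟨(E1 : Tri k N) • y j, E1_mem _⟩,
      fun j i => ⟨(P i : Tri k N) • y j, O_mem _ _⟩, fun r => ?_, fun r i => ?_, fun j => ?_⟩
    · apply Subtype.ext
      rw [AddSubgroup.coe_add, coe_sum]
      simp only [AddSubgroup.coe_add, coe_sum, coe_smul]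
      have e1 := congrArg (fun t => (E1 : Tri k N) • t) (h1 r)
      simp only [smul_add, smul_zero, Finset.smul_sum] at e1
      rw [hv2, ← mul_smul, ← C_comm, mul_smul, hv] at e1
      refine Eq.trans ?_ e1
      congr 1
      refine Finset.sum_congr rfl fun j _ => ?_
      rw [smul_split (χ.b r j) (y j), smul_add, smul_add, Finset.smul_sum]
      have f1 : (E1 : Tri k N) • (C (χ.b r j).l : Tri k N) • (E1 : Tri k N) • y j =
          (C (χ.b r j).l : Tri k N) • (E1 : Tri k N) • y j := by
        rw [← mul_smul, ← mul_smul, ← mul_smul, ← C_comm, mul_assoc, E1E1]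
      have f2 : (E1 : Tri k N) • (C (χ.b r j).r : Tri k N) • (E2 : Tri k N) • y j = 0 := by
        rw [← mul_smul, ← mul_smul, ← C_comm, mul_assoc, E1E2, mul_zero, zero_smul]
      have f3 : ∀ i, (E1 : Tri k N) • (C ((χ.b r j).f i) : Tri k N) • (P i : Tri k N) • y j =
          (C ((χ.b r j).f i) : Tri k N) • (P i : Tri k N) • y j := by
        intro i
        rw [← mul_smul, ← mul_smul, ← mul_smul, ← C_comm, mul_assoc, P, E1O]
      rw [f1, f2, add_zero]
      simp only [f3]
    · apply Subtype.ext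
      rw [coe_sum]
      simp only [coe_smul]
      have e1 := congrArg (fun t => (P i : Tri k N) • (E2 : Tri k N) • t) (h1 r)
      simp only [smul_add, smul_zero, Finset.smul_sum] at e1
      rw [hv2, ← mul_smul (E2 : Tri k N), ← C_comm, mul_smul, ← hv, ← mul_smul (E2 : Tri k N), E2E1,
        zero_smul, smul_zero, smul_zero, zero_add] at e1
      refine Eq.trans ?_ e1
      refine Finset.sum_congr rfl fun j _ => ?_
      rw [← mul_smul, ← mul_smul, ← mul_smul, mul_assoc, E2mul, ← mul_assoc, ← C_comm, mul_assoc,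
        P, OE2]
    · refine ⟨(E2 : Tri k N) • y j, ?_, fun i => ?_⟩
      · rw [← mul_smul, E2E2]
      · show (P i : Tri k N) • y j = (P i : Tri k N) • (E2 : Tri k N) • y j
        rw [← mul_smul, P, OE2]

end cls

/-! ### The module of a structure -/

/-- the module of a structure -/
structure MM (X : RS k N) where
  /-- the first component -/
  v : X.V
  /-- the second component -/
  w : X.Rel

namespace MM

variable {X : RS k N}

theorem ext' {a b : MM X} (h1 : a.v = b.v) (h2 : a.w = b.w) : a = b := by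
  cases a; cases b; cases h1; cases h2; rfl

/-- the pair -/
def eqv (X : RS k N) : MM X ≃ X.V × X.Rel where
  toFun a := (a.v, a.w)
  invFun a := ⟨a.1, a.2⟩
  left_inv _ := rfl
  right_inv _ := rfl

instance : AddCommGroup (MM X) := (eqv X).addCommGroup

@[simp] theorem add_v (a b : MM X) : (a + b).v = a.v + b.v := rfl
@[simp] theorem add_w (a b : MM X) : (a + b).w = a.w + b.w := rfl
@[simp] theorem zero_v : (0 : MM X).v = 0 := rfl
@[simp] theorem zero_w : (0 : MM X).w = 0 := rfl

instance : SMul (Tri k N) (MM X) :=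
  ⟨fun s a => ⟨s.l • a.v + ∑ i, s.f i • a.w.1 i, s.r • a.w⟩⟩

@[simp] theorem smul_v (s : Tri k N) (a : MM X) :
    (s • a).v = s.l • a.v + ∑ i, s.f i • a.w.1 i := rfl
@[simp] theorem smul_w (s : Tri k N) (a : MM X) : (s • a).w = s.r • a.w := rfl

instance : Module (Tri k N) (MM X) where
  one_smul a := ext' (by simp) (by simp)
  mul_smul s t a := ext' (by
    simp only [smul_v, smul_w, mul_l, mul_f, mul_smul, add_smul, Finset.sum_add_distrib, smul_add,
      Finset.smul_sum, Submodule.coe_smul, Pi.smul_apply]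
    abel) (by simp [mul_smul])
  smul_zero s := ext' (by simp) (by simp)
  smul_add s a b := ext' (by
    simp only [smul_v, add_v, add_w, smul_add, Submodule.coe_add, Pi.add_apply,
      Finset.sum_add_distrib]
    abel) (by simp)
  add_smul s t a := ext' (by
    simp only [smul_v, add_v, add_l, add_f, add_smul, Pi.add_apply, Finset.sum_add_distrib]
    abel) (by simp [add_smul])
  zero_smul a := ext' (by simp) (by simp)

theorem inClass {𝒜 : Set (Ax k N)} (hX : ∀ A ∈ 𝒜, A.Holds X) : InClass (TT 𝒜) (MM X) := by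
  rintro p (rfl | ⟨A, hA, rfl⟩)
  · intro x hx
    obtain ⟨h1, h2⟩ := mem_e0.1 hx
    rw [PP.sol_bot, AddSubgroup.mem_bot]
    apply ext'
    · have := congrArg MM.v h1
      simpa using this.symm
    · apply Subtype.ext
      funext i
      have := congrArg MM.v (h2 i)
      simpa [P, Pi.single_apply] using this
  · intro x hx
    obtain ⟨h1, h2⟩ := mem_hyp.1 hx
    have hv : x.v = 0 := by
      have := congrArg MM.v h1
      simpa using this.symm
    obtain ⟨w', h3, h4⟩ := hX A hA x.w.1 x.w.2 (fun i => by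
      have := congrArg MM.v (h2 i)
      simpa using this)
    show x ∈ (con A).sol (MM X)
    rw [mem_con]
    refine ⟨fun l => ⟨0, ⟨w' l, h3 l⟩⟩, fun l => ?_, fun i => ?_⟩
    · apply ext'
      · simp
      · simp
    · have hs : ∀ s : Finset (Fin A.m), (∑ l ∈ s, (O (A.e i l) : Tri k N) •
          (⟨0, ⟨w' l, h3 l⟩⟩ : MM X)) = ⟨∑ l ∈ s, ∑ j, A.e i l j • w' l j, 0⟩ := by
        intro s
        classical
        induction s using Finset.induction_on with
        | empty => rw [Finset.sum_empty, Finset.sum_empty]; rfl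
        | insert a s ha ih =>
          rw [Finset.sum_insert ha, Finset.sum_insert ha, ih]
          apply ext'
          · simp
          · simp
      rw [hs]
      apply ext'
      · have := h4 i
        simpa [hv] using this
      · simp

/-- the vector space of the structure of the module -/
def iso (X : RS k N) : X.V ≃ₗ[k] VV (k := k) (N := N) (MM X) where
  toFun v := ⟨⟨v, 0⟩, by
    rw [mem_VV]
    apply ext' <;> simp⟩
  invFun a := a.1.v
  left_inv v := rfl
  right_inv a := by
    apply Subtype.ext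
    have h1 : (E1 : Tri k N) • (a : MM X) = a := a.2
    have h2 := congrArg MM.w h1
    apply ext'
    · rfl
    · simpa using h2
  map_add' v v' := by
    apply Subtype.ext
    apply ext'
    · rfl
    · simp
  map_smul' c v := by
    apply Subtype.ext
    rw [RingHom.id_apply, coe_smul]
    apply ext' <;> simp

theorem iso_coe (X : RS k N) (v : X.V) : ((iso X v : VV (k := k) (N := N) (MM X)) : MM X) =
    ⟨v, 0⟩ := rfl

theorem iso_rel (X : RS k N) (p : Fin N → X.V) : p ∈ X.Rel ↔ (fun i => iso X (p i)) ∈ RR (MM X) := by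
  rw [mem_RR]
  constructor
  · intro hp
    refine ⟨⟨0, ⟨p, hp⟩⟩, ?_, fun i => ?_⟩
    · apply ext' <;> simp
    · rw [iso_coe]
      apply ext' <;> simp [P, Pi.single_apply]
  · rintro ⟨w, h1, h2⟩
    have h3 : p = w.w.1 := by
      funext i
      have := congrArg MM.v (h2 i)
      rw [iso_coe] at this
      simpa [P, Pi.single_apply] using this
    rw [h3]
    exact w.w.2

end MM

theorem sol_iso {X' X : RS k N} (g : X'.V ≃ₗ[k] X.V)
    (hg : ∀ p : Fin N → X'.V, p ∈ X'.Rel ↔ (fun i => g (p i)) ∈ X.Rel) (φ : RF k N) (v : X'.V) :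
    v ∈ φ.sol X' ↔ g v ∈ φ.sol X := by
  rw [RF.mem_sol, RF.mem_sol]
  constructor
  · rintro ⟨y, h1, h2⟩
    refine ⟨fun j => g (y j), fun i => ?_, fun l => ?_⟩
    · have := congrArg g (h1 i)
      simpa [map_sum] using this
    · have := (hg _).1 (h2 l)
      simpa [map_sum] using this
  · rintro ⟨y, h1, h2⟩
    refine ⟨fun j => g.symm (y j), fun i => ?_, fun l => ?_⟩
    · apply g.injective
      have := h1 i
      simpa [map_sum] using this
    · rw [hg]
      have := h2 l
      simpa [map_sum] using this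

end modules

/-- packet KB -/
theorem goalKB : GoalKB.{u} := by
  intro k _ N P hP
  obtain ⟨𝒜, hfin, hA⟩ := hP
  refine ⟨Tri k N, inferInstance, TT 𝒜, e1 k N,
    fun Y => ⟨XX Y.1, (hA _).2 fun A hAm => holds_of Y.2 hAm⟩,
    fun Y => (VV (k := k) (N := N) Y.1).subtype, Tri.descends, TT_sm hfin,
    fun Y => Subtype.val_injective, fun Y y => ?_, fun φ => ⟨chi φ, fun Y => chi_le,
      fun Y v => chi_iff⟩, fun χ => ⟨phi χ, fun Y v => phi_iff Y.2⟩, fun X' => ?_⟩
  · rw [mem_e1]
    constructor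
    · intro h
      exact ⟨⟨y, h⟩, rfl⟩
    · rintro ⟨v, rfl⟩
      exact v.2
  · refine ⟨⟨ModuleCat.of (Tri k N) (MM X'.1), MM.inClass ((hA _).1 X'.2)⟩, fun φ ψ h v hv => ?_⟩
    have h1 := sol_iso (X' := X'.1) (X := XX (MM X'.1)) (MM.iso X'.1) (MM.iso_rel X'.1)
    rw [h1] at hv ⊢
    exact h hv

end Pool.Agent.Helper75.CR
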